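import Pool.Agent.VM.StmtsW

/-! VM, module CNT: integers with small fractional part which are not divisible by `u`. -/

set_option autoImplicit false

namespace Pool.Agent.VM.H83

open Pool.Agent.VM

/-- congruent integers in an interval -/
theorem card_le_of_dvd (F : Finset ℤ) (u : ℕ) (hu : 1 ≤ u) (L : ℝ) (hL : 0 ≤ L)
    (h1 : ∀ x ∈ F, ∀ y ∈ F, (u : ℤ) ∣ x - y) (h2 : ∀ x ∈ F, ∀ y ∈ F, (x : ℝ) - y ≤ L) :
    (F.card : ℝ) ≤ L / u + 1 := by
  have hu0 : (0 : ℝ) < u := by exact_mod_cast hu
  rcases F.eq_empty_or_nonempty with h | h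
  · rw [h, Finset.card_empty, Nat.cast_zero]
    positivity
  · obtain ⟨m0, hm0, hmin⟩ := Finset.exists_min_image F id h
    have hinj : Set.InjOn (fun m : ℤ => ((m - m0) / (u : ℤ)).toNat) (F : Set ℤ) := by
      intro x hx y hy hxy
      have hx' := Finset.mem_coe.1 hx
      have hy' := Finset.mem_coe.1 hy
      obtain ⟨a, ha⟩ := h1 x hx' m0 hm0
      obtain ⟨c, hc⟩ := h1 y hy' m0 hm0
      have hx0 := hmin x hx'
      have hy0 := hmin y hy'
      simp only [id] at hx0 hy0
      have hune : (u : ℤ) ≠ 0 := by positivity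
      have hup : (0 : ℤ) < u := by positivity
      beta_reduce at hxy
      rw [ha, hc, Int.mul_ediv_cancel_left _ hune, Int.mul_ediv_cancel_left _ hune] at hxy
      have ha0 : 0 ≤ a := by
        by_contra h3
        rw [not_le] at h3
        have := mul_neg_of_pos_of_neg hup h3
        omega
      have hc0 : 0 ≤ c := by
        by_contra h3
        rw [not_le] at h3
        have := mul_neg_of_pos_of_neg hup h3
        omega
      have hac : a = c := by omega
      rw [hac, ← hc] at ha
      omega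
    have hmaps : ∀ m ∈ F, (fun m : ℤ => ((m - m0) / (u : ℤ)).toNat) m ∈
        Finset.range (⌊L / u⌋₊ + 1) := by
      intro x hx
      rw [Finset.mem_range, Nat.lt_add_one_iff, Nat.le_floor_iff (by positivity)]
      obtain ⟨a, ha⟩ := h1 x hx m0 hm0
      have hx0 := hmin x hx
      simp only [id] at hx0
      have hune : (u : ℤ) ≠ 0 := by positivity
      have hup : (0 : ℤ) < u := by positivity
      have ha0 : 0 ≤ a := by
        by_contra h3
        rw [not_le] at h3
        have := mul_neg_of_pos_of_neg hup h3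
        omega
      beta_reduce
      rw [ha, Int.mul_ediv_cancel_left _ hune, le_div_iff₀ hu0]
      have h3 := h2 x hx m0 hm0
      have h4 : ((a.toNat : ℕ) : ℝ) = (a : ℝ) := by
        have : ((a.toNat : ℕ) : ℤ) = a := Int.toNat_of_nonneg ha0
        exact_mod_cast this
      rw [h4]
      have h5 : (x : ℝ) - m0 = (u : ℝ) * a := by exact_mod_cast ha
      rw [h5] at h3
      linarith
    have h6 := Finset.card_le_card_of_injOn _ hmaps hinj
    rw [Finset.card_range] at h6
    have h7 : (F.card : ℝ) ≤ (⌊L / u⌋₊ : ℝ) + 1 := by exact_mod_cast h6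
    have h8 : (⌊L / u⌋₊ : ℝ) ≤ L / u := Nat.floor_le (by positivity)
    linarith

/-- CNT -/
theorem cnt : CntStmt := by
  classical
  intro t δ b u Q X hu huQ hb hβ hδ hδu
  have hu0 : (0 : ℝ) < u := by exact_mod_cast hu
  have hQ0 : (0 : ℝ) < Q := by exact_mod_cast (lt_of_lt_of_le hu huQ)
  have hX0 : (0 : ℝ) ≤ X := Nat.cast_nonneg X
  set β : ℝ := t - (b : ℝ) / u with hβdef
  -- the finite set
  set S : Finset ℤ := (Finset.Icc (-(X : ℤ)) X).filter
    (fun m => ¬ (u : ℤ) ∣ m ∧ Nr (t * (m : ℝ)) δ) with hS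
  have hcard : Nat.card {m : ℤ // |m| ≤ (X : ℤ) ∧ ¬ (u : ℤ) ∣ m ∧ Nr (t * (m : ℝ)) δ} = S.card := by
    rw [← Nat.card_eq_finsetCard S]
    refine Nat.card_congr (Equiv.subtypeEquivRight fun m => ?_)
    rw [hS, Finset.mem_filter, Finset.mem_Icc, abs_le]
  rw [hcard]
  -- the integers j
  have hz : ∀ m : ℤ, ∃ z : ℤ, Nr (t * (m : ℝ)) δ → |t * (m : ℝ) - z| ≤ δ := by
    intro m
    by_cases h : Nr (t * (m : ℝ)) δ
    · obtain ⟨z, hz⟩ := h
      exact ⟨z, fun _ => hz⟩
    · exact ⟨0, fun h' => absurd h' h⟩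
  choose z hz using hz
  set j : ℤ → ℤ := fun m => b * m - z m * u with hj
  have hj0 : ∀ m ∈ S, j m ≠ 0 := by
    intro m hm h0
    rw [hS, Finset.mem_filter] at hm
    apply hm.2.1
    have h1 : b * m = z m * u := by
      simp only [hj] at h0
      linarith
    have h2 : (u : ℤ) ∣ b * m := ⟨z m, by rw [h1]; ring⟩
    exact (Int.isCoprime_iff_gcd_eq_one.2 hb).symm.dvd_of_dvd_mul_left h2
  have hjb : ∀ m ∈ S, |(j m : ℝ) + β * u * m| ≤ δ * u := by
    intro m hm
    rw [hS, Finset.mem_filter] at hm
    have h1 := hz m hm.2.2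
    have h2 : (j m : ℝ) + β * u * m = (t * m - z m) * u := by
      simp only [hj, hβdef]
      push_cast
      field_simp
      ring
    rw [h2, abs_mul, abs_of_pos hu0]
    exact mul_le_mul_of_nonneg_right h1 hu0.le
  have hmX : ∀ m ∈ S, |(m : ℝ)| ≤ X := by
    intro m hm
    rw [hS, Finset.mem_filter, Finset.mem_Icc] at hm
    rw [abs_le]
    constructor
    · have := hm.1.1
      exact_mod_cast this
    · exact_mod_cast hm.1.2
  have hjA : ∀ m ∈ S, |(j m : ℝ)| ≤ 2 * |β| * u * X := by
    intro m hm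
    have h1 := hjb m hm
    have h2 := hj0 m hm
    have h3 : (1 : ℝ) ≤ |(j m : ℝ)| := by
      have : (1 : ℤ) ≤ |j m| := Int.one_le_abs h2
      exact_mod_cast this
    have h4 : |(j m : ℝ)| ≤ δ * u + |β * u * m| := by
      have := abs_sub_abs_le_abs_sub (j m : ℝ) (-(β * u * m))
      rw [abs_neg, sub_neg_eq_add] at this
      linarith
    have h5 : |β * u * m| ≤ |β| * u * X := by
      rw [abs_mul, abs_mul, abs_of_pos hu0]
      exact mul_le_mul_of_nonneg_left (hmX m hm) (by positivity)
    linarith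
  by_cases hβ0 : β = 0
  · -- no such m
    have : S = ∅ := by
      rw [Finset.eq_empty_iff_forall_notMem]
      intro m hm
      have h1 := hjA m hm
      have h3 : (1 : ℝ) ≤ |(j m : ℝ)| := by
        have : (1 : ℤ) ≤ |j m| := Int.one_le_abs (hj0 m hm)
        exact_mod_cast this
      rw [hβ0, abs_zero] at h1
      linarith
    rw [this, Finset.card_empty, Nat.cast_zero]
    positivity
  · have hβp : 0 < |β| := abs_pos.2 hβ0
    set A : ℕ := ⌊2 * |β| * u * X⌋₊ with hA
    set J : Finset ℤ := (Finset.Icc (-(A : ℤ)) A).erase 0 with hJ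
    have hJc : (J.card : ℝ) ≤ 4 * |β| * u * X := by
      have h1 : J.card = 2 * A := by
        rw [hJ, Finset.card_erase_of_mem (by rw [Finset.mem_Icc]; omega), Int.card_Icc]
        omega
      rw [h1]
      push_cast
      have h2 : (A : ℝ) ≤ 2 * |β| * u * X := Nat.floor_le (by positivity)
      linarith
    have hmaps : ∀ m ∈ S, j m ∈ J := by
      intro m hm
      rw [hJ, Finset.mem_erase, Finset.mem_Icc, ← abs_le]
      refine ⟨hj0 m hm, ?_⟩
      have h1 := hjA m hm
      have h2 : ((j m).natAbs : ℝ) ≤ 2 * |β| * u * X := by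
        rw [Nat.cast_natAbs, Int.cast_abs]
        exact h1
      have h3 := Nat.le_floor h2
      rw [← hA] at h3
      rw [Int.abs_eq_natAbs]
      exact_mod_cast h3
    rw [Finset.card_eq_sum_card_fiberwise hmaps]
    push_cast
    have hfib : ∀ i ∈ J, (((S.filter fun m => j m = i).card : ℕ) : ℝ) ≤ 2 * δ / (|β| * u) + 1 := by
      intro i _
      have h1 := card_le_of_dvd (S.filter fun m => j m = i) u hu (2 * δ / |β|) (by positivity) ?_ ?_
      · rw [div_div] at h1
        exact h1
      · intro x hx y hy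
        rw [Finset.mem_filter] at hx hy
        have h2 : b * (x - y) = (z x - z y) * u := by
          have h3 := hx.2
          have h4 := hy.2
          simp only [hj] at h3 h4
          linarith
        have h3 : (u : ℤ) ∣ b * (x - y) := ⟨z x - z y, by rw [h2]; ring⟩
        exact (Int.isCoprime_iff_gcd_eq_one.2 hb).symm.dvd_of_dvd_mul_left h3
      · intro x hx y hy
        rw [Finset.mem_filter] at hx hy
        have h2 := hjb x hx.1
        have h3 := hjb y hy.1
        rw [hx.2] at h2
        rw [hy.2] at h3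
        have h4 : |β * u * ((x : ℝ) - y)| ≤ 2 * (δ * u) := by
          have h5 : β * u * ((x : ℝ) - y) = ((i : ℝ) + β * u * x) - ((i : ℝ) + β * u * y) := by ring
          rw [h5]
          have := abs_sub (((i : ℝ) + β * u * x)) ((i : ℝ) + β * u * y)
          linarith
        rw [abs_mul, abs_mul, abs_of_pos hu0] at h4
        have h6 : |(x : ℝ) - y| ≤ 2 * δ / |β| := by
          rw [le_div_iff₀ hβp]
          have h7 : (|(x : ℝ) - y| * |β|) * u ≤ (2 * δ) * u := by linarith
          exact le_of_mul_le_mul_right h7 hu0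
        exact le_trans (le_abs_self _) h6
    have hsum := Finset.sum_le_sum hfib
    rw [Finset.sum_const, nsmul_eq_mul] at hsum
    refine le_trans hsum ?_
    have h9 : (J.card : ℝ) * (2 * δ / (|β| * u) + 1) ≤
        4 * |β| * u * X * (2 * δ / (|β| * u) + 1) :=
      mul_le_mul_of_nonneg_right hJc (by positivity)
    refine le_trans h9 ?_
    have h10 : 4 * |β| * u * X * (2 * δ / (|β| * u) + 1) = 8 * δ * X + 4 * X * (|β| * u) := by
      field_simp
      ring
    rw [h10]
    have h11 : |β| * u ≤ 1 / Q := by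
      have := mul_le_mul_of_nonneg_right hβ hu0.le
      refine le_trans this (le_of_eq ?_)
      field_simp
    have h12 : 4 * (X : ℝ) * (|β| * u) ≤ 4 * X * (1 / Q) :=
      mul_le_mul_of_nonneg_left h11 (by positivity)
    have h13 : 4 * (X : ℝ) * (1 / Q) = 4 * X / Q := by ring
    linarith

end Pool.Agent.VM.H83
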